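import Pool.Agent.H297.FT.Main

/-!
# The structure of the set of Jones-trivial members of a family with several full twists

`Pool.Agent.H891R2.Jones.Diagram` (starting library) contains the definitions `Diagram P` (oriented
link diagrams, planar or not), `Diagram.fPoly` (the normalised bracket `(-A^{-3})^{w(D)} ⟨D⟩`) and
`Outer m` (the part of an oriented diagram outside a box through which `m` strands run).
`Pool.Agent.H297.FT.Defs` adds: `Boxes m k` (`k` boxes, the box `e` on the consecutive strands
`off e, …, off e + size e - 1`; they may overlap), `family O B a` for `a ∈ ℤ^k` (the closed diagram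
with `a e` full twists on the `size e` strands of the box `e`, one box above the other) and `lk`
(the number of the strands of a box directed upwards minus the number of those directed downwards),
the linear forms `wt` on `ℤ^k`,
`w_s(a) = ∑ e, (s_e (s_e + 2) - 3 ℓ_e²) a_e` for `s_e ∈ {n_e, n_e - 2, …} , s_e ≥ 0`, and `w_∞ = 0`,
and the subgroup `Lam E = {a | w_s(a) = w_t(a) for all (s, t) ∈ E}` of `ℤ^k`.
-/

set_option autoImplicit false

namespace Pool.Agent.Results.MP_42db45_gt.FullTwistCosets

open Pool.Agent.H891R2.Jones Pool.Agent.H297.FT

/-- Let `D(a)`, `a ∈ ℤ^k`, be the diagrams obtained from an oriented link diagram by putting `a_e`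
full twists into `k` boxes, the box `e` on `n_e` strands with linking number `ℓ_e`.  Then all of
them are closed oriented diagrams, the set of all `a` with `f_{D(a)} = 1` is a finite union of
cosets of subgroups of the form `Λ(E) = {a | w_s(a) = w_t(a) for all (s, t) ∈ E}`, and hence it is
finite or contains a line `b + ℤ v`, `v ≠ 0`. -/
theorem result {m k : ℕ} (hm : 0 < m) (O : Outer m) (hO : O.close.IsClosed) (B : Boxes m k) :
    (∀ a : Fin k → ℤ, (family O B a).IsClosed) ∧
    (∃ F : Finset ((Fin k → ℤ) × Finset (Option (Ind B) × Option (Ind B))),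
      {a | (family O B a).fPoly = 1} = ⋃ p ∈ F, {a | a - p.1 ∈ Lam O B p.2}) ∧
    ({a | (family O B a).fPoly = 1}.Finite ∨ ∃ b v : Fin k → ℤ, v ≠ 0 ∧
      ∀ t : ℤ, (family O B (b + t • v)).fPoly = 1) :=
  ⟨family_closed O hO B, structure_thm' hm O B, finite_or_line hm O B⟩

end Pool.Agent.Results.MP_42db45_gt.FullTwistCosets
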