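import Pool.Agent.H953R3.JT.Fin

/-!
# Jones polynomials of twisted plane graphs: bounds polynomial in the number of twist regions

`Pool.Agent.H891R2.MT.Defs` and `Pool.Agent.H891R2.Jones.Diagram` contain the definitions:
`Ribbon k` (a ribbon graph with `k` edges: rotation system on its `2k` darts), `Ribbon.verts`,
`Ribbon.comps Γ S` (number of components `c(S)` of the spanning subgraph with edge set `S`),
`Ribbon.Planar` (a connected plane graph), `Ribbon.link n` (the unoriented link diagram which is the
boundary of the plane surface made of one disc for every vertex and, for every edge `e`, a band with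
`n e ∈ ℤ` half twists, that is, a row of `|n e|` crossings), `Orients D U` (`D` is the diagram `U` with
directions) and `Diagram.fPoly` (the normalised Kauffman bracket).  `SpanLE s U` (in
`Pool.Agent.H891R2.MT.T7`): `U` has an orientation for which the Jones polynomial, as a Laurent
polynomial in `t = A^{-4}`, has span at most `s` (for `s = 0`: for instance `fPoly = 1`).

`Pool.Agent.H953R3.JT.Fin`: `gain Γ n` is the maximum of `n(S) + |S| + c(S)` over the sets `S` of
edges without bridges (no edge of `S` is a bridge of the subgraph `S`), `n(S) = ∑ e ∈ S, n e`;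
`genericSpan Γ n = gain Γ n + gain Γ (-n) - (1 + verts + k)`; `Sharp Γ n`: for all directions the Jones
polynomial of `Γ.link n` has span exactly `genericSpan Γ n` (`4 * genericSpan Γ n` in the variable `A`) and
both extreme coefficients are `± 1`.

Proof: the bracket is a signed sum of `A^{4 n(S)}` times (monic) flow polynomials of the bridgeless
subgraphs `S`; the isolation lemma of Mulmuley, Vazirani and Vazirani gives a unique subgraph with
maximal `n(S) + |S| + c(S)`; a version for three nearly optimal sets gives the bound of second order.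
-/

set_option autoImplicit false

namespace Pool.Agent.Results.MP_42db45_gt.PolynomialTwist

open Finset Pool.Agent.H891R2.Jones Pool.Agent.H891R2.MT Pool.Agent.H953R3.JT

open Classical in
/-- Let `Γ` be a connected plane graph with `k ≥ 1` edges, let `A e ⊂ ℤ` be arbitrary finite sets
with at least `M` elements, and choose the numbers of crossings `n e ∈ A e` on the edges of `Γ`.

* `genericSpan Γ n` is at least the number `k + 1 - verts` of independent cycles of `Γ`.
* All links `Γ.link n`, `n ∈ ∏ A e`, except at most a proportion `2 k / M` of them, have a Jones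
  polynomial of span exactly `genericSpan Γ n` with extreme coefficients `± 1`; if `Γ` has a cycle, then
  `f ≠ 1` for these links.
* If `Γ` has two independent cycles, then at most a proportion
  `8 k² (16 k + 2 s + 21)² / M²` of the links has a Jones polynomial of span at most `s`; in particular
  this happens for at most `8 k² (16 k + 2 s + 21)² (2 N + 1)^(k-2)` of the `(2 N + 1)^k` links with
  `|n e| ≤ N` for all `e`. -/
theorem result (k : ℕ) (hk : 0 < k) (Γ : Ribbon k) (hΓ : Γ.Planar) :
    (∀ n : Fin k → ℤ, (k : ℤ) + 1 - Γ.verts ≤ genericSpan Γ n) ∧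
    (∀ (A : Fin k → Finset ℤ) (M : ℕ), (∀ e, M ≤ (A e).card) →
      M * #{n ∈ Fintype.piFinset A | ¬ Sharp Γ n} ≤ 2 * k * ∏ e, (A e).card) ∧
    (Γ.verts ≤ k → ∀ n, Sharp Γ n → ∀ D : Diagram (Ribbon.Pt n), Orients D (Γ.link n) →
      D.fPoly ≠ 1) ∧
    (Γ.verts + 1 ≤ k → ∀ s : ℕ,
      (∀ (A : Fin k → Finset ℤ) (M : ℕ), (∀ e, M ≤ (A e).card) →
        M ^ 2 * #{n ∈ Fintype.piFinset A | SpanLE s (Γ.link n)} ≤
          8 * k ^ 2 * (16 * k + 2 * s + 21) ^ 2 * ∏ e, (A e).card) ∧
      ∀ N : ℕ, {n : Fin k → ℤ | (∀ e, |n e| ≤ N) ∧ SpanLE s (Γ.link n)}.ncard ≤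
        8 * k ^ 2 * (16 * k + 2 * s + 21) ^ 2 * (2 * N + 1) ^ (k - 2)) := by
  refine ⟨genericSpan_ge Γ hΓ.1, fun A M hM => count_sharp Γ hΓ hk A M hM, ?_, fun hv s => ⟨?_, ?_⟩⟩
  · intro hv n hn D hD hf
    obtain ⟨m, h1, h2, h3⟩ := hn D hD
    have hge := genericSpan_ge Γ hΓ.1 n
    have hv' : (Γ.verts : ℤ) ≤ k := by exact_mod_cast hv
    have key : ∀ j, D.fPoly.coeff j ≠ 0 → j = 0 := by
      intro j hj
      by_contra h0
      apply hj
      rw [hf, ← LaurentPolynomial.T_zero, LaurentPolynomial.T_apply, if_neg (fun h => h0 h.symm)]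
    have e1 : m = 0 := key m (fun h => by rw [h] at h2; norm_num at h2)
    have e2 : m + 4 * genericSpan Γ n = 0 := key _ (fun h => by rw [h] at h3; norm_num at h3)
    linarith
  · intro A M hM
    exact count_span Γ hΓ hv A M hM s
  · intro N
    have hk2 : 2 ≤ k := by
      rcases Nat.lt_or_ge k 2 with h | h
      · exfalso
        have h1 : k = 1 := by omega
        have h2 : Γ.verts = 0 := by omega
        have h3 : 0 < Γ.verts := by
          unfold Ribbon.verts
          have : Nonempty (Quot (fun x y : Fin k × Bool => Γ.rot x = y)) :=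
            ⟨Quot.mk _ (⟨0, hk⟩, true)⟩
          have : Finite (Quot (fun x y : Fin k × Bool => Γ.rot x = y)) := Quot.finite _
          exact Nat.card_pos
        omega
      · exact h
    have h := count_span Γ hΓ hv (fun _ => Finset.Icc (-(N : ℤ)) N) (2 * N + 1) (fun e => by
      rw [Int.card_Icc]
      omega) s
    have hc : ∏ e : Fin k, (Finset.Icc (-(N : ℤ)) N).card = (2 * N + 1) ^ k := by
      rw [Finset.prod_const, Finset.card_univ, Fintype.card_fin, Int.card_Icc]
      congr 1
      omega
    rw [hc] at h
    have hset : {n : Fin k → ℤ | (∀ e, |n e| ≤ N) ∧ SpanLE s (Γ.link n)} =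
        (({n ∈ Fintype.piFinset (fun _ : Fin k => Finset.Icc (-(N : ℤ)) N) | SpanLE s (Γ.link n)} :
          Finset (Fin k → ℤ)) : Set (Fin k → ℤ)) := by
      ext n
      simp only [Set.mem_ofPred_eq, Finset.coe_filter, Fintype.mem_piFinset, Finset.mem_Icc, abs_le]
    rw [hset, Set.ncard_coe_finset]
    have hpow : (2 * N + 1) ^ k = (2 * N + 1) ^ 2 * (2 * N + 1) ^ (k - 2) := by
      rw [← pow_add]
      congr 1
      omega
    rw [hpow] at h
    have hpos : 0 < (2 * N + 1) ^ 2 := by positivity
    refine Nat.le_of_mul_le_mul_left ?_ hpos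
    calc _ ≤ _ := h
      _ = _ := by ring

end Pool.Agent.Results.MP_42db45_gt.PolynomialTwist
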