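import Pool.Agent.H953R3.JT.Site

/-!
# A zero-one law for the span of the Jones polynomial in twist families of arbitrary diagrams

Diagrams: `Pool.Agent.H891R2.Jones.Diagram` (`Crossing`, `Diagram`, `bracket`, `fPoly`),
`Pool.Agent.H891R2.MT.Defs` (`UDiagram`; `Orients D U`: `D` is the unoriented diagram `U` with
directions) and `Pool.Agent.H891R2.SI.Defs`:

* `Sites k`: a diagram `O` with `k` open boxes (sites), each with four corners; planarity is not
  required; `O.Connected`: the diagram is connected (each site being one piece);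
* `O.fill w`, `w ∈ ℤ^k`: the site `e` is filled with two vertical strands twisted around each other, a
  row of `|w e|` crossings of the kind given by the sign of `w e`.

`FSpanLE s D` (in `Pool.Agent.H832R3.TW.E`): the normalised bracket of `D` is supported in an
interval of length at most `4 s`, that is, the Jones polynomial (in `t = A^{-4}`) has span at most `s`;
the diagrams with the Jones polynomial `1` satisfy `FSpanLE 0`.

Proof: `δ^k ⟨O.fill w⟩` is a signed sum of `A^{-4 w(R)} Z(R)` over the sets `R` of sites (starting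
library). If two of the `Z(R)` do not vanish and the span is small, then one of the two extreme values
of `w(R)` is nearly attained twice, and the isolation lemma of Mulmuley, Vazirani and Vazirani bounds
the number of such `w`; otherwise all brackets are equal up to a unit.
-/

set_option autoImplicit false

namespace Pool.Agent.Results.MP_42db45_gt.SpanZeroOneLaw

open Finset Pool.Agent.H891R2.Jones Pool.Agent.H891R2.MT Pool.Agent.H891R2.SI
open Pool.Agent.H832R3.TW (FSpanLE)

open Classical in
/-- Let `O` be a connected diagram with `c` crossings and `k ≥ 1` sites, and let `s ≥ 0`. Then either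
the Jones polynomials of all the links `O.fill w`, `w ∈ ℤ^k` (with all directions), have span at most
`s`; or this happens rarely:

* for arbitrary finite sets `A e ⊂ ℤ` with at least `M` elements, at most a proportion
  `2 k (3 c + 6 k + 2 s + 2) / M` of the links `O.fill w`, `w ∈ ∏ A e`, has (for some directions) a Jones
  polynomial of span at most `s`;
* this happens for at most `2 k (3 c + 6 k + 2 s + 2) (2 N + 1)^(k-1)` of the `(2 N + 1)^k` links with
  `|w e| ≤ N` for all `e`. -/
theorem result (k : ℕ) (hk : 0 < k) (O : Sites k) (hO : O.Connected) (s : ℕ) :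
    (∀ (w : Fin k → ℤ) (D : Diagram (O.P ⊕ Ribbon.Pt w)), Orients D (O.fill w) → FSpanLE s D) ∨
    ((∀ (A : Fin k → Finset ℤ) (M : ℕ), (∀ e, M ≤ (A e).card) →
      M * #{w ∈ Fintype.piFinset A | ∃ D : Diagram (O.P ⊕ Ribbon.Pt w),
          Orients D (O.fill w) ∧ FSpanLE s D} ≤
        2 * k * (3 * O.crossings.length + 6 * k + 2 * s + 2) * ∏ e, (A e).card) ∧
    ∀ N : ℕ, {w : Fin k → ℤ | (∀ e, |w e| ≤ N) ∧ ∃ D : Diagram (O.P ⊕ Ribbon.Pt w),
          Orients D (O.fill w) ∧ FSpanLE s D}.ncard ≤
        2 * k * (3 * O.crossings.length + 6 * k + 2 * s + 2) * (2 * N + 1) ^ (k - 1)) := by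
  refine (Pool.Agent.H953R3.JT.zero_one O hk hO s).imp id fun h1 => ⟨h1, fun N => ?_⟩
  have h := h1 (fun _ => Finset.Icc (-(N : ℤ)) N) (2 * N + 1) (fun e => by
    rw [Int.card_Icc]
    omega)
  have hc : ∏ e : Fin k, (Finset.Icc (-(N : ℤ)) N).card = (2 * N + 1) ^ k := by
    rw [Finset.prod_const, Finset.card_univ, Fintype.card_fin, Int.card_Icc]
    congr 1
    omega
  rw [hc] at h
  have hset : {w : Fin k → ℤ | (∀ e, |w e| ≤ N) ∧ ∃ D : Diagram (O.P ⊕ Ribbon.Pt w),
          Orients D (O.fill w) ∧ FSpanLE s D} =
      (({w ∈ Fintype.piFinset (fun _ : Fin k => Finset.Icc (-(N : ℤ)) N) | 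
        ∃ D : Diagram (O.P ⊕ Ribbon.Pt w), Orients D (O.fill w) ∧ FSpanLE s D} :
        Finset (Fin k → ℤ)) : Set (Fin k → ℤ)) := by
    ext w
    simp only [Set.mem_ofPred_eq, Finset.coe_filter, Fintype.mem_piFinset, Finset.mem_Icc, abs_le]
  rw [hset, Set.ncard_coe_finset]
  have hpow : (2 * N + 1) ^ k = (2 * N + 1) * (2 * N + 1) ^ (k - 1) := by
    rw [← pow_succ']
    congr 1
    omega
  rw [hpow] at h
  have hpos : 0 < (2 * N + 1) := by positivity
  refine Nat.le_of_mul_le_mul_left ?_ hpos
  calc _ ≤ _ := h
    _ = _ := by ring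

end Pool.Agent.Results.MP_42db45_gt.SpanZeroOneLaw
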