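import Pool.Agent.H953R3.Q2.Fin2

/-!
# The Jones polynomial of twisted diagrams: a bound which does not depend on the number of twist
regions

Diagrams: `Pool.Agent.H891R2.Jones.Diagram` (`Crossing`, `Diagram`: oriented link diagrams with
marked points; `Diagram.IsClosed`; `Diagram.bracket`, `Diagram.fPoly`: the state sum and the
normalised bracket, a Laurent polynomial in `A = T 1`) and `Pool.Agent.H891R2.MT.Defs` (`Ribbon k`:
a ribbon graph with `k` edges, given by the rotation system on its `2 k` darts; `Ribbon.verts`,
`Ribbon.comps`; `Ribbon.Planar`: a connected plane graph; `Ribbon.link n`: the unoriented link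
diagram which is the boundary of the surface made of one disc for every vertex and, for every edge
`e`, a band with `n e` half twists, that is, a row of `|n e|` crossings; `Orients D U`: `D` is the
unoriented diagram `U` with directions).

`Pool.Agent.H953R3.Q2.Fin2`: `Balanced M F A`: for every edge `e ∈ F` the set `A e` contains either
no even numbers or at least `M`, and either no odd numbers or at least `M`.
-/

set_option autoImplicit false

namespace Pool.Agent.Results.MP_42db45_gt.ThirdOrderContact

open Finset LaurentPolynomial Pool.Agent.H891R2.Jones Pool.Agent.H891R2.MT Pool.Agent.H953R3.Q2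

open Classical in
/-- Let `Γ` be a connected plane graph with `k` edges which is not a tree (`verts ≤ k`), and let
`D(n)`, `n ∈ ℤ^k`, be the link diagram with `|n e|` crossings on the edge `e`. Let `f` be a Laurent
polynomial, for instance `f = 1`.

* Let `F` be a set of edges such that the other edges form a forest, and let `A e ⊂ ℤ` be finite
  sets such that, for `e ∈ F`, the even (odd) elements of `A e` are none or at least `M`. Among the
  links `D(n)`, `n ∈ ∏ A e`, the proportion of those whose normalised bracket, for some directions,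
  agrees with `f` up to terms of order `3` at `A = 1` is at most `2 / M`. In particular this bounds
  the proportion of the diagrams with normalised bracket `f`.
* At most `(2 / N) (2 N + 1) ^ k` of the `(2 N + 1) ^ k` diagrams `D(n)` with `|n e| ≤ N` for all `e`
  have, for some directions, the normalised bracket `f`. -/
theorem result (k : ℕ) (Γ : Ribbon k) (hΓ : Γ.Planar) (hk : Γ.verts ≤ k) (f : ℤ[T;T⁻¹]) :
    (∀ (F : Finset (Fin k)), Fᶜ.card + Γ.comps Fᶜ = Γ.verts → 
      ∀ (M : ℕ) (A : Fin k → Finset ℤ), Balanced M F A →
      M * #{n ∈ Fintype.piFinset A | ∃ D : Diagram (Ribbon.Pt n), Orients D (Γ.link n) ∧ 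
          D.IsClosed ∧ (T 1 - 1 : ℤ[T;T⁻¹]) ^ 3 ∣ D.fPoly - f} ≤ 2 * ∏ e, (A e).card ∧
      M * #{n ∈ Fintype.piFinset A | ∃ D : Diagram (Ribbon.Pt n), Orients D (Γ.link n) ∧ 
          D.IsClosed ∧ D.fPoly = f} ≤ 2 * ∏ e, (A e).card) ∧
    ∀ (N : ℕ), N * {n : Fin k → ℤ | (∀ e, |n e| ≤ N) ∧ ∃ D : Diagram (Ribbon.Pt n),
        Orients D (Γ.link n) ∧ D.IsClosed ∧ D.fPoly = f}.ncard ≤ 2 * (2 * N + 1) ^ k := 
  ⟨fun F hF M A hA => ⟨count_dvd Γ hΓ hk F hF f M A hA, count_eq Γ hΓ hk F hF f M A hA⟩, 
    fun N => count_cube Γ _ N fun A hA => count_eq Γ hΓ hk Finset.univ (empty_forest Γ) f N A hA⟩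

end Pool.Agent.Results.MP_42db45_gt.ThirdOrderContact
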